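import Mathlib
import Pool.Agent.Y52.RS.Stm

/-!
A closed path word with an edge has a backtrack.
-/

set_option autoImplicit false

namespace Pool.Agent.Y48.RS.BT

open Pool.Agent.Y52.RS Pool.Agent.Y52.RS.PW

variable {G : Type} [Group G] {H : Bool → Subgroup G} {C : Subgroup G}

/-- no backtrack -/
def NB (W : PW G C) : Prop := ∀ (U V : PW G C) (t : Bool), W ≠ U * z t * z (!t) * V

theorem NB.right {A W : PW G C} (h : NB (A * W)) : NB W := by
  intro U V t e
  apply h (A * U) V t
  rw [e]
  simp only [mul_assoc]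

theorem path_mul_left {s t : Bool} {W : PW G C} (h : Path H C s t W) {x : G} (hx : x ∈ H s) :
    Path H C s t (i x * W) := by
  cases h with
  | nil _ y hy =>
    rw [← i_mul]
    exact Path.nil s _ ((H s).mul_mem hx hy)
  | cons _ _ y W' hy hW =>
    have := Path.cons s t (x * y) W' ((H s).mul_mem hx hy) hW
    rw [i_mul] at this
    simpa only [mul_assoc] using this

theorem path_mul {s t u : Bool} {A B : PW G C} (h : Path H C s t A) (h' : Path H C t u B) :
    Path H C s u (A * B) := by
  induction h with
  | nil s x hx => exact path_mul_left h' hx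
  | cons s t x W hx hW ih =>
    have := Path.cons s u x (W * B) hx (ih h')
    simpa only [mul_assoc] using this

theorem path_dec (hC : ∀ s, C ≤ H s) {s t : Bool} {W : PW G C} (h : Path H C s t W) :
    ∀ (r : Bool) (A B : PW G C), W = A * z r * B → Path H C s r A ∧ Path H C (!r) t B := by
  induction h with
  | nil s x hx =>
    intro r A B e
    have := congrArg len e
    rw [len_i, len_mul, len_mul, len_z] at this
    omega
  | cons s t x W hx hW ih =>
    intro r A B e
    rcases levi e with ⟨A', h1, h2⟩ | ⟨B', h1, h2⟩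
    · have hl := congrArg len h1
      rw [len_mul, len_mul, len_mul, len_i, len_z, len_z] at hl
      have hA : A.len = 0 := by omega
      have hA' : A'.len = 0 := by omega
      have eA := eq_i_of_len hA
      have eA' := eq_i_of_len hA'
      have h3 : i (A.g⁻¹ * x) * z s * (1 : PW G C) = z r * A' := by
        apply mul_left_cancel' (u := A)
        rw [mul_one, ← mul_assoc, ← mul_assoc, ← h1]
        rw [i_mul]
        nth_rewrite 1 [eA]
        rw [← mul_assoc, i_mul_i_inv, one_mul]
      obtain ⟨hc, hs, h4⟩ := z_eq h3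
      subst hs
      rw [mul_one] at h4
      refine ⟨?_, ?_⟩
      · rw [eA]
        apply Path.nil
        have : A.g = x * (A.g⁻¹ * x)⁻¹ := by group
        rw [this]
        exact (H s).mul_mem hx ((H s).inv_mem (hC s hc))
      · rw [h2, h4]
        exact path_mul_left hW (hC _ hc)
    · obtain ⟨h3, h4⟩ := ih r B' B h2
      refine ⟨?_, h4⟩
      rw [h1]
      exact Path.cons s r x B' hx h3

theorem rw_mul_C (hC : ∀ s, C ≤ H s) {s t : Bool} {y : G} (h : RW H C s t y) {c : G}
    (hc : c ∈ C) : RW H C s t (y * c) := by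
  induction h with
  | one s x hx hx' =>
    refine RW.one s _ ((H s).mul_mem hx (hC s hc)) ?_
    intro h
    exact hx' ((C.mul_mem_cancel_right hc).mp h)
  | cons s t x y hx hx' hy ih =>
    rw [mul_assoc]
    exact RW.cons s t x _ hx hx' ih

theorem rw_append {s t : Bool} {y : G} (h : RW H C s t y) {x : G}
    (hx : x ∈ H (!t)) (hxC : x ∉ C) : RW H C s (!t) (y * x) := by
  induction h with
  | one s y hy hy' => exact RW.cons s (!s) y x hy hy' (RW.one (!s) x hx hxC)
  | cons s t a y ha ha' hy ih =>
    rw [mul_assoc]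
    exact RW.cons s (!t) a _ ha ha' (ih hx)

theorem key {s t : Bool} {W : PW G C} (h : Path H C s t W) :
    NB (z (!s) * W) →
      (t = s ∧ ∃ x ∈ H s, W = i x) ∨ (∃ y x, RW H C s (!t) y ∧ x ∈ H t ∧ W.g = y * x) := by
  induction h with
  | nil s x hx =>
    intro _
    exact Or.inl ⟨rfl, x, hx, rfl⟩
  | cons s t x W hx hW ih =>
    intro hnb
    right
    have hxC : x ∉ C := by
      intro hc
      apply hnb 1 (i x * W) (!s)
      rw [Bool.not_not, one_mul, i_mul_z hc]
      simp only [mul_assoc]
    have hnb' : NB (z (!(!s)) * W) := by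
      rw [Bool.not_not]
      apply NB.right (A := z (!s) * i x)
      simpa only [mul_assoc] using hnb
    rcases ih hnb' with ⟨ht, x', hx', hW'⟩ | ⟨y', x', hy', hx', hg⟩
    · refine ⟨x, x', ?_, ?_, ?_⟩
      · rw [ht, Bool.not_not]
        exact RW.one s x hx hxC
      · rw [ht]; exact hx'
      · rw [mul_g, mul_g, i_g, z_g, mul_one, hW', i_g]
    · refine ⟨x * y', x', RW.cons s (!t) x y' hx hxC hy', hx', ?_⟩
      rw [mul_g, mul_g, i_g, z_g, mul_one, hg, mul_assoc]

theorem main : S_BT := by
  intro G _ H C hC hRW s W hW hg hlen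
  have hex : ∃ (U V : PW G C) (t : Bool), W = U * z t * z (!t) * V := by
    by_contra hcon
    have hnb : NB W := by
      intro U V t e
      exact hcon ⟨U, V, t, e⟩
    cases hW with
    | nil _ x hx =>
      rw [len_i] at hlen
      omega
    | cons _ _ x0 W1 hx0 hW1 =>
      have hnb1 : NB (z (!(!s)) * W1) := by
        rw [Bool.not_not]
        apply NB.right (A := i x0)
        simpa only [mul_assoc] using hnb
      rcases key hW1 hnb1 with ⟨h1, _⟩ | ⟨y, x, hy, hx, hg1⟩
      · exact absurd h1 (by cases s <;> decide)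
      · rw [mul_g, mul_g, i_g, z_g, mul_one, hg1] at hg
        have h2 : y * (x * x0) = 1 := by
          have h3 : y * x = x0⁻¹ := (eq_inv_of_mul_eq_one_right hg)
          rw [← mul_assoc, h3, inv_mul_cancel]
        by_cases hc : x * x0 ∈ C
        · exact hRW _ _ _ (rw_mul_C hC hy hc) h2
        · have hm : x * x0 ∈ H (!(!s)) := by
            rw [Bool.not_not]
            exact (H s).mul_mem hx hx0
          exact hRW _ _ _ (rw_append hy hm hc) h2
  obtain ⟨U, V, t, e⟩ := hex
  refine ⟨U, V, t, e, ?_⟩
  have e' : W = U * z t * (z (!t) * V) := by rw [e, mul_assoc]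
  obtain ⟨h1, h2⟩ := path_dec hC hW t U _ e'
  have e2 : z (!t) * V = (1 : PW G C) * z (!t) * V := by rw [one_mul]
  obtain ⟨-, h4⟩ := path_dec hC h2 (!t) 1 V e2
  rw [Bool.not_not] at h4
  exact path_mul h1 h4

end Pool.Agent.Y48.RS.BT
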